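import Mathlib

/-!
# Realizable beta and gamma sequences of 3-component links

A Seifert surface `G` for `L₁` with a basis of `H₁(G)` gives a Seifert matrix `V` with `V - Vᵀ`
invertible over `ℤ`; a curve in the complement of `G` has a coordinate vector `v` (its linking
numbers with the basis of `H₁(G)`).
-/

namespace Pool.Agent.Results.MP_61c315_gt.BetaGamma

open Matrix

/-- The class in `H₁(G)` of the curve in which `G` meets a Seifert surface of a curve with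
coordinate vector `v` in the complement of `G`: the solution `x` of `(V - Vᵀ) x = v`. -/
noncomputable def cut {n : Type} [Fintype n] [DecidableEq n] (V : Matrix n n ℤ) (v : n → ℤ) :
    n → ℤ :=
  (V - Vᵀ)⁻¹ *ᵥ v

/-- The class in `H₁(G)` of the iterated derivative `L_{1^(k+1) 2}`, where `L₂` has the coordinate
vector `v`: the push-off of a curve of class `x` on `G` has the coordinate vector `V x`. -/
noncomputable def derivative {n : Type} [Fintype n] [DecidableEq n] (V : Matrix n n ℤ)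
    (v : n → ℤ) : ℕ → n → ℤ
  | 0 => cut V v
  | k + 1 => cut V (V *ᵥ derivative V v k)

/-- The number `β^(k+1)`: the linking number of `L_{1^(k+1) 2}` with its push-off. -/
noncomputable def beta {n : Type} [Fintype n] [DecidableEq n] (V : Matrix n n ℤ) (v : n → ℤ)
    (k : ℕ) : ℤ :=
  derivative V v k ⬝ᵥ (V *ᵥ derivative V v k)

/-- The number `γ^(k+1) = (A⁻¹ (V A⁻¹)^k v₂)ᵀ v₃`, `A = V - Vᵀ`. -/
noncomputable def gamma {n : Type} [Fintype n] [DecidableEq n] (V : Matrix n n ℤ)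
    (v₂ v₃ : n → ℤ) (k : ℕ) : ℤ :=
  (((V - Vᵀ)⁻¹ * (V * (V - Vᵀ)⁻¹) ^ k) *ᵥ v₂) ⬝ᵥ v₃

/-- The triple of sequences `(b, c, g)` (first term: index `0`) comes from the Seifert matrix `V`
of a surface and the coordinate vectors `v₂`, `v₃` of two curves in its complement. -/
def Realizable (b c g : ℕ → ℤ) : Prop :=
  ∃ (h : ℕ) (V : Matrix (Fin (2 * h)) (Fin (2 * h)) ℤ) (v₂ v₃ : Fin (2 * h) → ℤ),
    IsUnit (V - Vᵀ) ∧ (∀ k, beta V v₂ k = b k) ∧ (∀ k, beta V v₃ k = c k) ∧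
      ∀ k, gamma V v₂ v₃ k = g k

/-- `s` satisfies a homogeneous linear recurrence with constant integer coefficients. -/
def Recurrent (s : ℕ → ℤ) : Prop :=
  ∃ (d : ℕ) (a : Fin d → ℤ), ∀ k, s (k + d) = ∑ i : Fin d, a i * s (k + i)

section Necessary

variable {n : Type} [Fintype n] [DecidableEq n]

/-- sequences of the form `u · M^k y` are recurrent -/
lemma recurrent_of_pow (M : Matrix n n ℤ) (u y : n → ℤ) (s : ℕ → ℤ)
    (hs : ∀ k, s k = u ⬝ᵥ ((M ^ k) *ᵥ y)) : Recurrent s := by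
  classical
  refine ⟨Fintype.card n, fun i => - M.charpoly.coeff i, ?_⟩
  intro k
  have hc := Matrix.aeval_self_charpoly M
  rw [Polynomial.aeval_eq_sum_range, Matrix.charpoly_natDegree_eq_dim] at hc
  rw [Finset.sum_range_succ] at hc
  have hl : M.charpoly.coeff (Fintype.card n) = 1 := by
    have := Matrix.charpoly_monic M
    rw [Polynomial.Monic, Polynomial.leadingCoeff, Matrix.charpoly_natDegree_eq_dim] at this
    exact this
  rw [hl, one_smul] at hc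
  have h1 : M ^ (k + Fintype.card n) =
      - ∑ i ∈ Finset.range (Fintype.card n), M.charpoly.coeff i • M ^ (k + i) := by
    have h2 : M ^ Fintype.card n = - ∑ i ∈ Finset.range (Fintype.card n),
        M.charpoly.coeff i • M ^ i := by
      rw [eq_neg_iff_add_eq_zero, add_comm]; exact hc
    rw [pow_add, h2, mul_neg, Finset.mul_sum]
    congr 1
    refine Finset.sum_congr rfl fun i _ => ?_
    rw [mul_smul_comm, pow_add]
  rw [hs, h1, neg_mulVec, dotProduct_neg]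
  rw [← Fin.sum_univ_eq_sum_range (fun i => M.charpoly.coeff i • M ^ (k + i))]
  rw [Matrix.sum_mulVec, dotProduct_sum, ← Finset.sum_neg_distrib]
  refine Finset.sum_congr rfl fun i _ => ?_
  rw [hs, smul_mulVec, dotProduct_smul, smul_eq_mul, neg_mul]

variable (V : Matrix n n ℤ)

lemma derivative_eq (v : n → ℤ) (k : ℕ) :
    derivative V v k = (((V - Vᵀ)⁻¹ * V) ^ k) *ᵥ ((V - Vᵀ)⁻¹ *ᵥ v) := by
  induction k with
  | zero => simp [derivative, cut]
  | succ k ih =>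
    rw [derivative, cut, ih, pow_succ']
    simp [Matrix.mulVec_mulVec, Matrix.mul_assoc]

variable {V}

lemma inv_transpose (hV : IsUnit (V - Vᵀ)) : ((V - Vᵀ)⁻¹)ᵀ = -(V - Vᵀ)⁻¹ := by
  have hdet : IsUnit (V - Vᵀ).det := (Matrix.isUnit_iff_isUnit_det _).1 hV
  have h1 : (V - Vᵀ)ᵀ = -(V - Vᵀ) := by simp
  rw [Matrix.transpose_nonsing_inv, h1]
  apply Matrix.inv_eq_left_inv
  rw [neg_mul_neg, Matrix.nonsing_inv_mul _ hdet]

lemma transpose_mul (hV : IsUnit (V - Vᵀ)) :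
    ((V - Vᵀ)⁻¹ * V)ᵀ * V = V * (1 - (V - Vᵀ)⁻¹ * V) := by
  have hdet : IsUnit (V - Vᵀ).det := (Matrix.isUnit_iff_isUnit_det _).1 hV
  rw [Matrix.transpose_mul, inv_transpose hV, mul_sub, mul_one, mul_neg, neg_mul]
  have h2 : Vᵀ * (V - Vᵀ)⁻¹ = V * (V - Vᵀ)⁻¹ - 1 := by
    have h := Matrix.mul_nonsing_inv _ hdet
    rw [sub_mul] at h
    rw [← h]; abel
  rw [h2, sub_mul, one_mul, neg_sub, Matrix.mul_assoc]

lemma transpose_pow_mul (hV : IsUnit (V - Vᵀ)) (k : ℕ) :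
    (((V - Vᵀ)⁻¹ * V) ^ k)ᵀ * V = V * (1 - (V - Vᵀ)⁻¹ * V) ^ k := by
  induction k with
  | zero => simp
  | succ k ih =>
    rw [pow_succ', Matrix.transpose_mul, Matrix.mul_assoc, transpose_mul hV, ← Matrix.mul_assoc,
      ih, Matrix.mul_assoc, pow_succ]

lemma beta_eq (hV : IsUnit (V - Vᵀ)) (v : n → ℤ) (k : ℕ) :
    beta V v k = (Vᵀ *ᵥ ((V - Vᵀ)⁻¹ *ᵥ v)) ⬝ᵥ
      ((((1 - (V - Vᵀ)⁻¹ * V) * ((V - Vᵀ)⁻¹ * V)) ^ k) *ᵥ ((V - Vᵀ)⁻¹ *ᵥ v)) := by
  set P := (V - Vᵀ)⁻¹ * V with hP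
  set x := (V - Vᵀ)⁻¹ *ᵥ v with hx
  have hc : Commute (1 - P) P := by
    simp [Commute, SemiconjBy, sub_mul, mul_sub]
  have hm : ∀ (Q : Matrix n n ℤ) (y w : n → ℤ), (Q *ᵥ y) ⬝ᵥ w = y ⬝ᵥ (Qᵀ *ᵥ w) := by
    intro Q y w
    rw [Matrix.dotProduct_mulVec, Matrix.vecMul_transpose]
  rw [beta, derivative_eq, ← hP, ← hx, hc.mul_pow]
  clear_value x
  rw [hm (P ^ k) x, hm Vᵀ x, Matrix.mulVec_mulVec, Matrix.mulVec_mulVec, Matrix.mulVec_mulVec,
    Matrix.transpose_transpose, transpose_pow_mul hV, ← hP, Matrix.mul_assoc]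

lemma gamma_eq (v w : n → ℤ) (k : ℕ) :
    gamma V v w k = w ⬝ᵥ ((((V - Vᵀ)⁻¹ * V) ^ k) *ᵥ ((V - Vᵀ)⁻¹ *ᵥ v)) := by
  rw [gamma, dotProduct_comm, Matrix.mulVec_mulVec]
  congr 2
  induction k with
  | zero => simp
  | succ k ih => rw [pow_succ', ← Matrix.mul_assoc, ← Matrix.mul_assoc, Matrix.mul_assoc _ _ (_ ^ k),
      ih, pow_succ', Matrix.mul_assoc, Matrix.mul_assoc, Matrix.mul_assoc]

end Necessary

section Sufficient

variable {m n : Type} [Fintype m] [DecidableEq m] [Fintype n] [DecidableEq n]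

lemma gamma_eq' (V : Matrix n n ℤ) (v w : n → ℤ) (k : ℕ) :
    gamma V v w k = w ⬝ᵥ derivative V v k := by
  rw [gamma_eq, derivative_eq]

/-- Realizability with an arbitrary index type. -/
def RealOn (n : Type) [Fintype n] [DecidableEq n] (b c g : ℕ → ℤ) : Prop :=
  ∃ (V : Matrix n n ℤ) (v₂ v₃ : n → ℤ),
    IsUnit (V - Vᵀ) ∧ (∀ k, beta V v₂ k = b k) ∧ (∀ k, beta V v₃ k = c k) ∧
      ∀ k, gamma V v₂ v₃ k = g k

lemma cut_submatrix (e : m ≃ n) (V : Matrix n n ℤ) (v : n → ℤ) :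
    cut (V.submatrix e e) (v ∘ e) = cut V v ∘ e := by
  have h : V.submatrix e e - (V.submatrix e e)ᵀ = (V - Vᵀ).submatrix e e := by
    ext i j; simp
  rw [cut, h, Matrix.inv_submatrix_equiv, Matrix.submatrix_mulVec_equiv, cut]
  congr 2
  ext i; simp

lemma derivative_submatrix (e : m ≃ n) (V : Matrix n n ℤ) (v : n → ℤ) (k : ℕ) :
    derivative (V.submatrix e e) (v ∘ e) k = derivative V v k ∘ e := by
  induction k with
  | zero => exact cut_submatrix e V v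
  | succ k ih =>
    rw [derivative, derivative, ih, Matrix.submatrix_mulVec_equiv, ← cut_submatrix]
    congr 2
    congr 1
    ext i; simp

lemma beta_submatrix (e : m ≃ n) (V : Matrix n n ℤ) (v : n → ℤ) (k : ℕ) :
    beta (V.submatrix e e) (v ∘ e) k = beta V v k := by
  rw [beta, derivative_submatrix, Matrix.submatrix_mulVec_equiv, beta,
    comp_equiv_dotProduct_comp_equiv]
  congr 2
  ext i; simp

lemma RealOn.realizable {b c g : ℕ → ℤ} (H : RealOn n b c g) {h : ℕ}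
    (hn : Fintype.card n = 2 * h) : Realizable b c g := by
  obtain ⟨V, v, w, hV, hb, hc, hg⟩ := H
  let e : Fin (2 * h) ≃ n := (Fintype.equivFinOfCardEq hn).symm
  refine ⟨h, V.submatrix e e, v ∘ e, w ∘ e, ?_, ?_, ?_, ?_⟩
  · have h : V.submatrix e e - (V.submatrix e e)ᵀ = (V - Vᵀ).submatrix e e := by
      ext i j; simp
    rw [h]
    exact (Matrix.isUnit_submatrix_equiv e e).2 hV
  · intro k; rw [beta_submatrix, hb]
  · intro k; rw [beta_submatrix, hc]
  · intro k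
    rw [gamma_eq', derivative_submatrix, comp_equiv_dotProduct_comp_equiv, ← gamma_eq', hg]

lemma blk_sub {p q : Type} (A A' : Matrix p p ℤ) (B B' : Matrix p q ℤ) (C C' : Matrix q p ℤ)
    (D D' : Matrix q q ℤ) :
    fromBlocks A B C D - fromBlocks A' B' C' D' =
      fromBlocks (A - A') (B - B') (C - C') (D - D') := by
  ext i j
  rcases i with i | i <;> rcases j with j | j <;> rfl

omit [Fintype m] [DecidableEq m] in
lemma blk_sub_transpose (A B C D : Matrix m m ℤ) :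
    fromBlocks A B C D - (fromBlocks A B C D)ᵀ =
      fromBlocks (A - Aᵀ) (B - Cᵀ) (C - Bᵀ) (D - Dᵀ) := by
  rw [Matrix.fromBlocks_transpose, blk_sub]

lemma diag_isUnit (V : Matrix m m ℤ) (W : Matrix n n ℤ) (hV : IsUnit (V - Vᵀ))
    (hW : IsUnit (W - Wᵀ)) :
    IsUnit (fromBlocks V 0 0 W - (fromBlocks V 0 0 W)ᵀ) ∧
      (fromBlocks V 0 0 W - (fromBlocks V 0 0 W)ᵀ)⁻¹ =
        fromBlocks (V - Vᵀ)⁻¹ 0 0 (W - Wᵀ)⁻¹ := by
  have h1 : fromBlocks V 0 0 W - (fromBlocks V 0 0 W)ᵀ = fromBlocks (V - Vᵀ) 0 0 (W - Wᵀ) := by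
    rw [Matrix.fromBlocks_transpose, blk_sub]; simp
  have hV' := (Matrix.isUnit_iff_isUnit_det _).1 hV
  have hW' := (Matrix.isUnit_iff_isUnit_det _).1 hW
  have h2 : fromBlocks (V - Vᵀ) 0 0 (W - Wᵀ) * fromBlocks (V - Vᵀ)⁻¹ 0 0 (W - Wᵀ)⁻¹ = 1 := by
    rw [Matrix.fromBlocks_multiply]
    simp [Matrix.mul_nonsing_inv _ hV', Matrix.mul_nonsing_inv _ hW']
  rw [h1]
  exact ⟨IsUnit.of_mul_eq_one _ h2, Matrix.inv_eq_right_inv h2⟩

lemma cut_diag (V : Matrix m m ℤ) (W : Matrix n n ℤ) (hV : IsUnit (V - Vᵀ))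
    (hW : IsUnit (W - Wᵀ)) (v : m → ℤ) (w : n → ℤ) :
    cut (fromBlocks V 0 0 W) (Sum.elim v w) = Sum.elim (cut V v) (cut W w) := by
  rw [cut, (diag_isUnit V W hV hW).2, Matrix.fromBlocks_mulVec]
  simp [cut]

lemma derivative_diag (V : Matrix m m ℤ) (W : Matrix n n ℤ) (hV : IsUnit (V - Vᵀ))
    (hW : IsUnit (W - Wᵀ)) (v : m → ℤ) (w : n → ℤ) (k : ℕ) :
    derivative (fromBlocks V 0 0 W) (Sum.elim v w) k =
      Sum.elim (derivative V v k) (derivative W w k) := by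
  induction k with
  | zero => exact cut_diag V W hV hW v w
  | succ k ih =>
    rw [derivative, ih, Matrix.fromBlocks_mulVec]
    simp [derivative, cut_diag V W hV hW]

lemma RealOn.add {b c g b' c' g' : ℕ → ℤ} (H : RealOn m b c g) (H' : RealOn n b' c' g') :
    RealOn (m ⊕ n) (b + b') (c + c') (g + g') := by
  obtain ⟨V, v, w, hV, hb, hc, hg⟩ := H
  obtain ⟨V', v', w', hV', hb', hc', hg'⟩ := H'
  refine ⟨fromBlocks V 0 0 V', Sum.elim v v', Sum.elim w w', (diag_isUnit V V' hV hV').1,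
    ?_, ?_, ?_⟩
  · intro k
    rw [beta, derivative_diag V V' hV hV', Matrix.fromBlocks_mulVec]
    simp [← hb, ← hb', beta]
  · intro k
    rw [beta, derivative_diag V V' hV hV', Matrix.fromBlocks_mulVec]
    simp [← hc, ← hc', beta]
  · intro k
    rw [gamma_eq', derivative_diag V V' hV hV']
    simp [← hg, ← hg', gamma_eq']

lemma skew_inv : (fromBlocks 0 1 (-1) 0 : Matrix (m ⊕ m) (m ⊕ m) ℤ)⁻¹ =
    fromBlocks 0 (-1) 1 0 := by
  apply Matrix.inv_eq_right_inv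
  rw [Matrix.fromBlocks_multiply]; simp

lemma skew_isUnit : IsUnit (fromBlocks 0 1 (-1) 0 : Matrix (m ⊕ m) (m ⊕ m) ℤ) := by
  refine IsUnit.of_mul_eq_one (fromBlocks 0 (-1) 1 0) ?_
  rw [Matrix.fromBlocks_multiply]; simp

/-- The piece with vanishing `β`'s and prescribed `γ`. -/
lemma piece_gamma (N : Matrix m m ℤ) (e f : m → ℤ) :
    RealOn (m ⊕ m) 0 0 (fun k => f ⬝ᵥ ((N ^ k) *ᵥ e)) := by
  have hA : fromBlocks 0 (1 - Nᵀ) (-N) 0 - (fromBlocks 0 (1 - Nᵀ) (-N) 0)ᵀ =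
      (fromBlocks 0 1 (-1) 0 : Matrix (m ⊕ m) (m ⊕ m) ℤ) := by
    rw [blk_sub_transpose]; simp
    abel
  have hcut : ∀ a b : m → ℤ, cut (fromBlocks 0 (1 - Nᵀ) (-N) 0) (Sum.elim a b) =
      Sum.elim (-b) a := by
    intro a b
    rw [cut, hA, skew_inv, Matrix.fromBlocks_mulVec]; simp [Matrix.neg_mulVec]
  have h2 : ∀ k, derivative (fromBlocks 0 (1 - Nᵀ) (-N) 0) (Sum.elim 0 (-e)) k =
      Sum.elim ((N ^ k) *ᵥ e) (0 : m → ℤ) := by
    intro k
    induction k with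
    | zero => rw [derivative, hcut]; simp
    | succ k ih =>
      rw [derivative, ih, Matrix.fromBlocks_mulVec]
      simp [hcut, pow_succ', Matrix.neg_mulVec]
  have h3 : ∀ k, derivative (fromBlocks 0 (1 - Nᵀ) (-N) 0) (Sum.elim f 0) k =
      Sum.elim (0 : m → ℤ) (((1 - Nᵀ) ^ k) *ᵥ f) := by
    intro k
    induction k with
    | zero => rw [derivative, hcut]; simp
    | succ k ih =>
      rw [derivative, ih, Matrix.fromBlocks_mulVec]
      simp [hcut, pow_succ']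
  refine ⟨fromBlocks 0 (1 - Nᵀ) (-N) 0, Sum.elim 0 (-e), Sum.elim f 0, ?_, ?_, ?_, ?_⟩
  · rw [hA]; exact skew_isUnit
  · intro k
    rw [beta, h2, Matrix.fromBlocks_mulVec]; simp
  · intro k
    rw [beta, h3, Matrix.fromBlocks_mulVec]; simp
  · intro k
    rw [gamma_eq', h2]; simp

lemma gamma_zero_right (V : Matrix n n ℤ) (v : n → ℤ) (k : ℕ) : gamma V v 0 k = 0 := by
  rw [gamma_eq']; simp

lemma cut_zero (V : Matrix n n ℤ) : cut V 0 = 0 := by simp [cut]

lemma derivative_zero (V : Matrix n n ℤ) (k : ℕ) : derivative V 0 k = 0 := by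
  induction k with
  | zero => exact cut_zero V
  | succ k ih => rw [derivative, ih, Matrix.mulVec_zero, cut_zero]

lemma beta_zero (V : Matrix n n ℤ) (k : ℕ) : beta V 0 k = 0 := by
  rw [beta, derivative_zero]; simp

lemma gamma_zero_left (V : Matrix n n ℤ) (v : n → ℤ) (k : ℕ) : gamma V 0 v k = 0 := by
  rw [gamma_eq', derivative_zero]; simp

lemma swap_mul (N : Matrix m m ℤ) : (fromBlocks 0 Nᵀ N 0 : Matrix (m ⊕ m) (m ⊕ m) ℤ) *
    fromBlocks 0 1 1 0 = fromBlocks Nᵀ 0 0 N := by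
  rw [Matrix.fromBlocks_multiply]; simp

lemma mul_swap (N : Matrix m m ℤ) : (fromBlocks 0 1 1 0 : Matrix (m ⊕ m) (m ⊕ m) ℤ) *
    fromBlocks 0 Nᵀ N 0 = fromBlocks N 0 0 Nᵀ := by
  rw [Matrix.fromBlocks_multiply]; simp

lemma diag_pow {p q : Type} [Fintype p] [DecidableEq p] [Fintype q] [DecidableEq q]
    (A : Matrix p p ℤ) (D : Matrix q q ℤ) (k : ℕ) :
    (fromBlocks A 0 0 D) ^ k = fromBlocks (A ^ k) 0 0 (D ^ k) := by
  induction k with
  | zero => simp [Matrix.fromBlocks_one]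
  | succ k ih => rw [pow_succ, ih, Matrix.fromBlocks_multiply]; simp [pow_succ]

/-- The matrix and the vector with a prescribed `β`. -/
lemma exists_beta (N : Matrix m m ℤ) (e f : m → ℤ) :
    ∃ (V : Matrix ((m ⊕ m) ⊕ (m ⊕ m)) ((m ⊕ m) ⊕ (m ⊕ m)) ℤ) (v : (m ⊕ m) ⊕ (m ⊕ m) → ℤ),
      IsUnit (V - Vᵀ) ∧ ∀ k, beta V v k = e ⬝ᵥ ((N ^ k) *ᵥ f) := by
  set S : Matrix (m ⊕ m) (m ⊕ m) ℤ := fromBlocks 0 1 1 0 with hS
  set W : Matrix (m ⊕ m) (m ⊕ m) ℤ := fromBlocks 0 Nᵀ N 0 with hW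
  have hS' : Sᵀ = S := by rw [hS, Matrix.fromBlocks_transpose]; simp
  have hW' : Wᵀ = W := by rw [hW, Matrix.fromBlocks_transpose]; simp
  set V := fromBlocks S 1 0 W with hV
  have hA : V - Vᵀ = fromBlocks 0 1 (-1) 0 := by
    rw [hV, blk_sub_transpose, hS', hW']; simp
  have hu : IsUnit (V - Vᵀ) := by rw [hA]; exact skew_isUnit
  set e' : m ⊕ m → ℤ := Sum.elim e 0 with he
  set f' : m ⊕ m → ℤ := Sum.elim f 0 with hf
  refine ⟨V, Sum.elim f' (-e'), hu, ?_⟩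
  intro k
  have hx : (V - Vᵀ)⁻¹ *ᵥ Sum.elim f' (-e') = Sum.elim e' f' := by
    rw [hA, skew_inv, Matrix.fromBlocks_mulVec]; simp [Matrix.neg_mulVec]
  have hP : (V - Vᵀ)⁻¹ * V = fromBlocks 0 (-W) S 1 := by
    rw [hA, skew_inv, hV, Matrix.fromBlocks_multiply]; simp
  have hQ : (1 - (V - Vᵀ)⁻¹ * V) * ((V - Vᵀ)⁻¹ * V) = fromBlocks (W * S) 0 0 (S * W) := by
    rw [hP, ← Matrix.fromBlocks_one, blk_sub, Matrix.fromBlocks_multiply]
    simp
  rw [beta_eq hu, hQ, hx, diag_pow, hW, hS, swap_mul, mul_swap, diag_pow, diag_pow, hV,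
    Matrix.fromBlocks_transpose, Matrix.fromBlocks_mulVec, Matrix.fromBlocks_mulVec, hS', hW', hS,
    hW, he, hf]
  simp [Matrix.fromBlocks_mulVec]

lemma piece_beta (N : Matrix m m ℤ) (e f : m → ℤ) :
    RealOn ((m ⊕ m) ⊕ (m ⊕ m)) (fun k => e ⬝ᵥ ((N ^ k) *ᵥ f)) 0 0 := by
  obtain ⟨V, v, hV, h⟩ := exists_beta N e f
  exact ⟨V, v, 0, hV, h, fun k => beta_zero V k, fun k => gamma_zero_right V v k⟩

lemma piece_beta' (N : Matrix m m ℤ) (e f : m → ℤ) :
    RealOn ((m ⊕ m) ⊕ (m ⊕ m)) 0 (fun k => e ⬝ᵥ ((N ^ k) *ᵥ f)) 0 := by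
  obtain ⟨V, v, hV, h⟩ := exists_beta N e f
  exact ⟨V, 0, v, hV, fun k => beta_zero V k, h, fun k => gamma_zero_left V v k⟩

/-- A recurrent sequence is `u · N^k y` for an integer matrix `N`. -/
lemma Recurrent.exists_matrix {s : ℕ → ℤ} (hs : Recurrent s) :
    ∃ (d : ℕ) (N : Matrix (Fin d) (Fin d) ℤ) (u y : Fin d → ℤ),
      ∀ k, u ⬝ᵥ ((N ^ k) *ᵥ y) = s k := by
  obtain ⟨d, a, ha⟩ := hs
  let N : Matrix (Fin d) (Fin d) ℤ := fun i j =>
    if (i : ℕ) + 1 < d then (if (j : ℕ) = i + 1 then 1 else 0) else a j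
  refine ⟨d, N, fun i => if (i : ℕ) = 0 then 1 else 0, fun i => s i, ?_⟩
  have hN : ∀ k, (N ^ k) *ᵥ (fun i : Fin d => s i) = fun i : Fin d => s (k + i) := by
    intro k
    induction k with
    | zero => simp
    | succ k ih =>
      rw [pow_succ', ← Matrix.mulVec_mulVec, ih]
      funext i
      simp only [Matrix.mulVec, dotProduct, N]
      by_cases h : (i : ℕ) + 1 < d
      · simp only [h, if_true]
        rw [Finset.sum_eq_single (⟨(i : ℕ) + 1, h⟩ : Fin d)]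
        · simp; congr 1; ring
        · intro j _ hj
          have : (j : ℕ) ≠ i + 1 := fun hh => hj (Fin.ext hh)
          simp [this]
        · simp
      · simp only [h, if_false]
        have h1 : (i : ℕ) + 1 = d := by have := i.isLt; omega
        rw [← ha k]
        congr 1; omega
  intro k
  rw [hN]
  rcases Nat.eq_zero_or_pos d with hd | hd
  · subst hd
    have := ha k
    simp at this
    simp [this]
  · rw [dotProduct, Finset.sum_eq_single (⟨0, hd⟩ : Fin d)]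
    · simp
    · intro j _ hj
      have : (j : ℕ) ≠ 0 := fun hh => hj (Fin.ext hh)
      simp [this]
    · simp

end Sufficient

/-- A triple `(b, c, g)` of integer sequences comes from the Seifert matrix of a surface and the
coordinate vectors of two curves in its complement if and only if each of the three sequences
satisfies a linear recurrence with constant integer coefficients. -/
theorem result (b c g : ℕ → ℤ) :
    Realizable b c g ↔ Recurrent b ∧ Recurrent c ∧ Recurrent g := by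
  constructor
  · rintro ⟨h, V, v, w, hV, hb, hc, hg⟩
    refine ⟨?_, ?_, ?_⟩
    · exact recurrent_of_pow _ _ _ b (fun k => by rw [← hb, beta_eq hV])
    · exact recurrent_of_pow _ _ _ c (fun k => by rw [← hc, beta_eq hV])
    · exact recurrent_of_pow _ _ _ g (fun k => by rw [← hg, gamma_eq])
  · rintro ⟨hb, hc, hg⟩
    obtain ⟨d₁, N₁, u₁, y₁, h₁⟩ := hb.exists_matrix
    obtain ⟨d₂, N₂, u₂, y₂, h₂⟩ := hc.exists_matrix
    obtain ⟨d₃, N₃, u₃, y₃, h₃⟩ := hg.exists_matrix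
    have H := ((piece_beta N₁ u₁ y₁).add (piece_beta' N₂ u₂ y₂)).add (piece_gamma N₃ y₃ u₃)
    simp only [add_zero, zero_add] at H
    rw [funext h₁, funext h₂, funext h₃] at H
    refine H.realizable (h := 2 * d₁ + 2 * d₂ + d₃) ?_
    simp only [Fintype.card_sum, Fintype.card_fin]
    ring

end Pool.Agent.Results.MP_61c315_gt.BetaGamma
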